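import Pool.Agent.H.MP_c74d57_an.A

namespace Pool.Agent.Results.MP_c74d57_an.Counter

/-- Causal matrix sequences. -/
abbrev Seq (p q : ℕ) : Type := ℕ → Matrix (Fin p) (Fin q) ℝ

/-- Absolutely summable entries. -/
def InL1 {p q : ℕ} (X : Seq p q) : Prop := ∀ i j, Summable fun k => |X k i j|

/-- Convolution product. -/
def conv {p q r : ℕ} (X : Seq p q) (Y : Seq q r) : Seq p r :=
  fun k => ∑ t ∈ Finset.range (k + 1), X t * Y (k - t)

/-- The induced peak-to-peak norm. -/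
noncomputable def norm1 {p q : ℕ} (X : Seq p q) : ℝ := ⨆ i, ∑ j, ∑' k, |X k i j|

/-- Every entry of the transform is a quotient of polynomials. -/
def IsRat {p q : ℕ} (X : Seq p q) : Prop :=
  ∀ i j, ∃ P D : Polynomial ℝ, D ≠ 0 ∧
    (D : PowerSeries ℝ) * PowerSeries.mk (fun k => X k i j) = (P : PowerSeries ℝ)

/-- Normal rank: rank of the transform over the fraction field of the power series. -/
noncomputable def nrank {p q : ℕ} (X : Seq p q) : ℕ :=
  Matrix.rank (Matrix.of fun i j => algebraMap (PowerSeries ℝ) (FractionRing (PowerSeries ℝ))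
    (PowerSeries.mk fun k => X k i j))

/-- `Q` is an optimal solution. -/
def Optimal {nz nw nu ny : ℕ} (H : Seq nz nw) (U : Seq nz nu) (V : Seq ny nw) (Q : Seq nu ny) :
    Prop :=
  InL1 Q ∧ ∀ Q' : Seq nu ny, InL1 Q' →
    norm1 (H - conv (conv U Q) V) ≤ norm1 (H - conv (conv U Q') V)

open Pool.Agent.H.MP_c74d57_an in
theorem result :
    ∃ (H : Seq 1 3) (U : Seq 1 1) (V : Seq 1 3),
      InL1 H ∧ InL1 U ∧ InL1 V ∧ IsRat H ∧ IsRat U ∧ IsRat V ∧
      ¬ (nrank U = 1 ∧ nrank V = 3) ∧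
      (∃ Q, Optimal H U V Q) ∧ ∀ Q, Optimal H U V Q → ¬ IsRat Q := by
  let H : Seq 1 3 := fun k => Matrix.of fun _ j => ![0, (1 / 2) ^ k * Real.cos k, (1 / 2) ^ k] j
  let δ : ∀ r, Seq 1 r := fun r k => Matrix.of fun _ _ => if k = 0 then 1 else 0
  have dl : ∀ r, InL1 (δ r) := fun r i j =>
    summable_of_ne_finset_zero (s := {0}) fun k hk => by simp at hk; simp [δ, hk]
  have dr : ∀ r, IsRat (δ r) := fun r i j => ⟨1, 1, one_ne_zero, by
    ext k; simp [δ, PowerSeries.coeff_one]⟩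
  have hcos : ∀ k : ℕ, |(1 / 2 : ℝ) ^ k * Real.cos k| ≤ (1 / 2) ^ k := fun k => by
    rw [abs_mul, abs_of_pos (by positivity)]
    exact mul_le_of_le_one_right (by positivity) (Real.abs_cos_le_one _)
  have hl : InL1 H := fun i j => by
    refine Summable.of_nonneg_of_le (fun k => abs_nonneg _) (fun k => ?_) summable_geometric_two
    fin_cases j
    · simp [H]
    · exact hcos k
    · exact (abs_of_pos (by positivity : (0 : ℝ) < (1 / 2) ^ k)).le
  have cv : ∀ (Q : Seq 1 1) k i j, conv (conv (δ 1) Q) (δ 3) k i j = Q k 0 0 := by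
    intro Q k i j
    have e : conv (δ 1) Q = Q := by
      ext t a b
      rw [conv, Finset.sum_range_succ', Matrix.add_apply, Matrix.sum_apply]
      simp [δ, Matrix.mul_apply, Subsingleton.elim a 0]
    rw [e, conv, Finset.sum_range_succ, Matrix.add_apply, Matrix.sum_apply,
      Finset.sum_eq_zero fun t ht => by
        have : k - t ≠ 0 := by have := Finset.mem_range.1 ht; omega
        simp [δ, Matrix.mul_apply, this]]
    simp [δ, Matrix.mul_apply, Subsingleton.elim i 0]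
  have sm : ∀ Q : Seq 1 1, InL1 Q → ∀ j, Summable fun k => |H k 0 j - Q k 0 0| := fun Q hQ j =>
    ((hl 0 j).of_abs.sub (hQ 0 0).of_abs).abs
  have nm : ∀ Q : Seq 1 1, InL1 Q → norm1 (H - conv (conv (δ 1) Q) (δ 3)) =
      ∑' k, (|0 - Q k 0 0| + |(1 / 2) ^ k * Real.cos k - Q k 0 0| + |(1 / 2) ^ k - Q k 0 0|) := by
    intro Q hQ
    rw [norm1, ciSup_unique]
    simp only [Pi.sub_apply, Matrix.sub_apply, cv, Fin.sum_univ_three]
    exact ((((sm Q hQ 0).add (sm Q hQ 1)).tsum_add (sm Q hQ 2)).trans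
      (congrArg (· + _) ((sm Q hQ 0).tsum_add (sm Q hQ 1)))).symm
  have hq : ∀ k : ℕ, q k = max 0 ((1 / 2) ^ k * Real.cos k) := fun k => by
    rw [q, f, mul_max_of_nonneg _ _ (by positivity), mul_zero]
  let Q0 : Seq 1 1 := fun k => Matrix.of fun _ _ => q k
  have l0 : InL1 Q0 := fun i j => by
    refine Summable.of_nonneg_of_le (fun k => abs_nonneg _) (fun k => ?_) summable_geometric_two
    change |q k| ≤ _
    rw [hq, abs_of_nonneg (le_max_left _ _)]
    exact max_le (by positivity) ((le_abs_self _).trans (hcos k))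
  have key : ∀ Q : Seq 1 1, InL1 Q → norm1 (H - conv (conv (δ 1) Q0) (δ 3)) +
      ∑' k, |Q k 0 0 - q k| ≤ norm1 (H - conv (conv (δ 1) Q) (δ 3)) := by
    intro Q hQ
    have s0 := ((sm Q0 l0 0).add (sm Q0 l0 1)).add (sm Q0 l0 2)
    have s1 := ((sm Q hQ 0).add (sm Q hQ 1)).add (sm Q hQ 2)
    have s2 : Summable fun k => |Q k 0 0 - q k| := ((hQ 0 0).of_abs.sub (l0 0 0).of_abs).abs
    rw [nm Q0 l0, nm Q hQ]
    refine (le_of_eq (s0.tsum_add s2).symm).trans ((s0.add s2).tsum_le_tsum (fun k => ?_) s1)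
    have := median (t := Q k 0 0) (by positivity : (0 : ℝ) ≤ (1 / 2) ^ k)
      ((le_abs_self _).trans (hcos k))
    rw [← hq] at this
    exact this
  refine ⟨H, δ 1, δ 3, hl, dl 1, dl 3, fun i j => ?_, dr 1, dr 3, fun h => ?_,
    ⟨Q0, l0, fun Q hQ => ?_⟩, fun Q hQ hr => ?_⟩
  · have ne : ∀ D : Polynomial ℝ, D.coeff 0 = 1 → D ≠ 0 := fun D h h0 => by simp [h0] at h
    fin_cases j
    · exact ⟨0, 1, one_ne_zero, by ext k; simp [H]⟩
    · exact ⟨_, _, ne _ (by simp), cos_rat⟩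
    · exact ⟨_, _, ne _ (by simp), geo_rat⟩
  · have h1 : nrank (δ 3) ≤ 1 := Matrix.rank_le_height _
    have := h.2
    omega
  · have : 0 ≤ ∑' k, |Q k 0 0 - q k| := tsum_nonneg fun k => abs_nonneg _
    linarith [key Q hQ]
  · have s2 : Summable fun k => |Q k 0 0 - q k| := ((hQ.1 0 0).of_abs.sub (l0 0 0).of_abs).abs
    have h1 := key Q hQ.1
    have h2 := hQ.2 Q0 l0
    have h3 : ∀ k, Q k 0 0 = q k := fun k => by
      have := s2.le_tsum k fun _ _ => abs_nonneg _
      exact sub_eq_zero.1 (abs_nonpos_iff.1 (by linarith))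
    obtain ⟨P, D, hD, h⟩ := hr 0 0
    simp only [h3] at h
    exact hD (q_not_rat P D h)

end Pool.Agent.Results.MP_c74d57_an.Counter
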